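import Pool.Agent.Helper17.SZ.Main

/-!
Groups covered by the conjugates of a finite simple subgroup: the answer is negative for every finite
simple nonabelian group `H` of even order all of whose elements have odd order or order dividing `4`,
and which has no element of order `3` or no element of order `4`. (By the classification these are
the Suzuki groups and the groups `SL(2, 2^n)`.)
-/

set_option autoImplicit false

namespace Pool.Agent.Results.MP_ca9d64_al.SuzukiGroups

theorem result (G : Type*) [Group G] (H : Subgroup G) (hproper : H ≠ ⊤)
    (hfin : Finite H) (hsimple : IsSimpleGroup H) (hnonab : ∃ a b : H, a * b ≠ b * a)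
    (heven : Even (Nat.card H))
    (hord : ∀ h : H, h ^ 4 = 1 ∨ Odd (orderOf h))
    (h34 : (∀ h : H, orderOf h ≠ 3) ∨ (∀ h : H, orderOf h ≠ 4)) :
    ∃ g : G, ∀ x : G, x⁻¹ * g * x ∉ H := by
  by_contra hcon
  push Not at hcon
  exact hproper (H17SZ.main H hnonab heven hord h34 hcon)

end Pool.Agent.Results.MP_ca9d64_al.SuzukiGroups
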